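import Pool.Agent.MP_a28cf0_nt.Mg.Cub_Final
import Pool.Agent.MP_a28cf0_nt.Mg.Cub_Construct
import Pool.Agent.MP_a28cf0_nt.Cub.Unfold
import Pool.Agent.MP_a28cf0_nt.Cub.Ellip

set_option autoImplicit false

namespace Pool.Agent.Results.MP_a28cf0_nt.CubicMoments

open Pool.Agent.MP_a28cf0_nt.Cub in
/-- Cubic joint moments of normalised Maass forms on the modular surface tend to zero as the
smallest spectral parameter tends to infinity, away from the window `t₃ ≈ t₁ + t₂`. -/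
theorem result :
  ∀ ψ : ℂ → ℝ, (∀ n : ℕ, ContDiffOn ℝ n ψ {z : ℂ | 0 < z.im}) →
    (∀ z : ℂ, 0 < z.im → ψ (z + 1) = ψ z ∧ ψ (-z⁻¹) = ψ z) →
    (∃ Y : ℝ, ∀ z : ℂ, Y ≤ z.im → ψ z = 0) →
  ∀ δ : ℝ, 0 < δ → ∀ ε : ℝ, 0 < ε → ∃ T : ℝ, ∀ (f : Fin 3 → ℂ → ℝ) (t : Fin 3 → ℝ),
    (∀ i, T ≤ t i ∧
      ContDiffOn ℝ 2 (f i) {z : ℂ | 0 < z.im} ∧
      (∀ z : ℂ, 0 < z.im →
        -(z.im ^ 2) * (iteratedFDeriv ℝ 2 (f i) z ![(1 : ℂ), 1]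
          + iteratedFDeriv ℝ 2 (f i) z ![Complex.I, Complex.I])
          = (1 / 4 + t i ^ 2) * f i z) ∧
      (∀ z : ℂ, 0 < z.im → f i (z + 1) = f i z ∧ f i (-z⁻¹) = f i z) ∧
      MeasureTheory.IntegrableOn (fun z : ℂ => f i z ^ 2 / z.im ^ 2)
        {z : ℂ | 0 < z.im ∧ |z.re| ≤ 1 / 2 ∧ 1 ≤ ‖z‖} ∧
      (∫ z in {z : ℂ | 0 < z.im ∧ |z.re| ≤ 1 / 2 ∧ 1 ≤ ‖z‖}, f i z ^ 2 / z.im ^ 2)
        = Real.pi / 3) →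
    t 0 ≤ t 1 → t 1 ≤ t 2 → δ * t 0 ≤ |t 0 + t 1 - t 2| →
    |∫ z in {z : ℂ | 0 < z.im ∧ |z.re| ≤ 1 / 2 ∧ 1 ≤ ‖z‖},
        ψ z * (f 0 z * f 1 z * f 2 z) / z.im ^ 2| < ε := by
  intro ψ hs hi hY δ hδ ε hε
  obtain ⟨Ψ, hΨ, hunf⟩ := unfold ψ hs hi hY
  obtain ⟨T, hT⟩ := main hΨ hδ hε
  refine ⟨T, fun f t hf t12 t23 hw => ?_⟩
  choose Φ hΦ hΦ0 using fun i => exists_sys (f i) (t i)
    (smooth_of_eigen (f i) _ (hf i).2.1 (hf i).2.2.1) (hf i).2.2.1 (hf i).2.2.2.1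
    (hf i).2.2.2.2.1 (hf i).2.2.2.2.2
  have h1 := hT (t 0) (t 1) (t 2) (Φ 0) (Φ 1) (Φ 2) (hf 0).1 t12 t23 hw (hΦ 0) (hΦ 1) (hΦ 2)
  have h2 := hunf (fun z => f 0 z * f 1 z * f 2 z)
    (((hf 0).2.1.continuousOn.mul (hf 1).2.1.continuousOn).mul (hf 2).2.1.continuousOn)
    (fun z hz => by
      simp only [((hf _).2.2.2.1 z hz).1, ((hf _).2.2.2.1 z hz).2, and_self])
  have h3 : tau Ψ (Φ 0) (Φ 1) (Φ 2) 0 0 0 =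
      ∫ M, Ψ M * ((f 0 (pr M) * f 1 (pr M) * f 2 (pr M) : ℝ) : ℂ) ∂nu := by
    refine MeasureTheory.integral_congr_ae (ae_mem_Sh.mono fun M hM => ?_)
    simp only [hΦ0 _ M (Sh_subset hM)]
    push_cast; rfl
  rw [h3, ← h2, Complex.norm_real, Real.norm_eq_abs] at h1
  exact h1

end Pool.Agent.Results.MP_a28cf0_nt.CubicMoments
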