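import Pool.Agent.MP_a28cf0_nt.Mg.Dec_Main

set_option autoImplicit false

namespace Pool.Agent.Results.MP_a28cf0_nt.Decoupling

open Pool.Agent.MP_a28cf0_nt.Cub Pool.Agent.MP_a28cf0_nt.Dec in
/-- Decoupling of the joint `(2,2)` moment on the modular surface: for every normalised
eigenfunction `f` with parameter at most `T`, all but `δ T²` members `g j` of any orthogonal family
of normalised cusp forms with parameters at most `T` have `∫ ψ f² (g j)²` within `ε` of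
`∫ ψ f²`. -/
theorem result :
  ∀ ψ : ℂ → ℝ, (∀ n : ℕ, ContDiffOn ℝ n ψ {z : ℂ | 0 < z.im}) →
    (∀ z : ℂ, 0 < z.im → ψ (z + 1) = ψ z ∧ ψ (-z⁻¹) = ψ z) →
    (∃ Y : ℝ, ∀ z : ℂ, Y ≤ z.im → ψ z = 0) →
  ∀ ε δ : ℝ, 0 < ε → 0 < δ → ∃ T₀ : ℝ, ∀ T : ℝ, T₀ ≤ T →
    ∀ (f : ℂ → ℝ) (t : ℝ), 0 ≤ t → t ≤ T →
      ContDiffOn ℝ 2 f {z : ℂ | 0 < z.im} →
      (∀ z : ℂ, 0 < z.im →
        -(z.im ^ 2) * (iteratedFDeriv ℝ 2 f z ![(1 : ℂ), 1]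
          + iteratedFDeriv ℝ 2 f z ![Complex.I, Complex.I])
          = (1 / 4 + t ^ 2) * f z) →
      (∀ z : ℂ, 0 < z.im → f (z + 1) = f z ∧ f (-z⁻¹) = f z) →
      MeasureTheory.IntegrableOn (fun z : ℂ => f z ^ 2 / z.im ^ 2)
        {z : ℂ | 0 < z.im ∧ |z.re| ≤ 1 / 2 ∧ 1 ≤ ‖z‖} →
      (∫ z in {z : ℂ | 0 < z.im ∧ |z.re| ≤ 1 / 2 ∧ 1 ≤ ‖z‖}, f z ^ 2 / z.im ^ 2)
        = Real.pi / 3 →
    ∀ (n : ℕ) (g : Fin n → ℂ → ℝ) (s : Fin n → ℝ),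
      (∀ j, 0 ≤ s j ∧ s j ≤ T ∧
        ContDiffOn ℝ 2 (g j) {z : ℂ | 0 < z.im} ∧
        (∀ z : ℂ, 0 < z.im →
          -(z.im ^ 2) * (iteratedFDeriv ℝ 2 (g j) z ![(1 : ℂ), 1]
            + iteratedFDeriv ℝ 2 (g j) z ![Complex.I, Complex.I])
            = (1 / 4 + s j ^ 2) * g j z) ∧
        (∀ z : ℂ, 0 < z.im → g j (z + 1) = g j z ∧ g j (-z⁻¹) = g j z) ∧
        (∀ y : ℝ, 0 < y → ∫ x in (0 : ℝ)..1, g j ((x : ℂ) + (y : ℂ) * Complex.I) = 0) ∧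
        MeasureTheory.IntegrableOn (fun z : ℂ => g j z ^ 2 / z.im ^ 2)
          {z : ℂ | 0 < z.im ∧ |z.re| ≤ 1 / 2 ∧ 1 ≤ ‖z‖} ∧
        (∫ z in {z : ℂ | 0 < z.im ∧ |z.re| ≤ 1 / 2 ∧ 1 ≤ ‖z‖}, g j z ^ 2 / z.im ^ 2)
          = Real.pi / 3) →
      (∀ i j, i ≠ j →
        (∫ z in {z : ℂ | 0 < z.im ∧ |z.re| ≤ 1 / 2 ∧ 1 ≤ ‖z‖},
          g i z * g j z / z.im ^ 2) = 0) →
      ((Finset.univ.filter fun j : Fin n => ε ≤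
        |(∫ z in {z : ℂ | 0 < z.im ∧ |z.re| ≤ 1 / 2 ∧ 1 ≤ ‖z‖},
            ψ z * (f z ^ 2 * g j z ^ 2) / z.im ^ 2)
          - ∫ z in {z : ℂ | 0 < z.im ∧ |z.re| ≤ 1 / 2 ∧ 1 ≤ ‖z‖},
            ψ z * f z ^ 2 / z.im ^ 2|).card : ℝ) ≤ δ * T ^ 2 := by
  intro ψ hs hi hY ε δ hε hδ
  obtain ⟨T₀, h⟩ := main hs hi hY hε hδ
  refine ⟨T₀, fun T hT f t h0 h1 h2 he hfi hint hn n g s hg ho => ?_⟩
  have key := h (Fin n) Finset.univ (fun j => Up.indicator (g j)) s T (Up.indicator f) t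
    ⟨⟨fun j _ => form_ind (hg j).2.2.1 (hg j).2.2.2.1 (hg j).2.2.2.2.1 (hg j).2.2.2.2.2.2.1
      (hg j).2.2.2.2.2.2.2, fun i _ j _ hij => (int_ind₂ (fun z a b => a * b / z.im ^ 2) _ _).trans
        (ho i j hij)⟩, fun j _ => cusp_ind (hg j).2.2.2.2.2.1, fun j _ => (hg j).1,
      fun j _ => (hg j).2.1⟩ hT (form_ind h2 he hfi hint hn) h0 h1
  simp only [int_ind₂ fun z a b => ψ z * (a ^ 2 * b ^ 2) / z.im ^ 2,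
    int_ind₂ (fun z a _ => ψ z * a ^ 2 / z.im ^ 2) f f] at key
  exact key

end Pool.Agent.Results.MP_a28cf0_nt.Decoupling
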