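import Pool.Agent.MP_a28cf0_nt.D4.Main

set_option autoImplicit false

namespace Pool.Agent.Results.MP_a28cf0_nt.FourthAE

open Pool.Agent.MP_a28cf0_nt Pool.Agent.MP_a28cf0_nt.Cub Pool.Agent.MP_a28cf0_nt.D4 in
/-- The Gaussian fourth moment for almost all Hecke-Maass cusp forms in short spectral windows:
all but `δ T M` members of an orthogonal family with parameters in `[T, T + M]`, `T ^ θ ≤ M ≤ T`,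
`θ > 1 / 2`, have `∫ ψ f ^ 4` within `ε` of `3 ∫ ψ`. -/
theorem result :
  ∀ θ : ℝ, 1 / 2 < θ →
  ∀ ψ : ℂ → ℝ, (∀ n : ℕ, ContDiffOn ℝ n ψ {z : ℂ | 0 < z.im}) →
    (∀ z : ℂ, 0 < z.im → ψ (z + 1) = ψ z ∧ ψ (-z⁻¹) = ψ z) →
    (∃ Y : ℝ, ∀ z : ℂ, Y ≤ z.im → ψ z = 0) →
  ∀ ε δ : ℝ, 0 < ε → 0 < δ → ∃ T₀ : ℝ, ∀ T M : ℝ, T₀ ≤ T → T ^ θ ≤ M → M ≤ T →
    ∀ (n : ℕ) (f : Fin n → ℂ → ℝ) (t : Fin n → ℝ),
      (∀ i, T ≤ t i ∧ t i ≤ T + M ∧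
        ContDiffOn ℝ 2 (f i) {z : ℂ | 0 < z.im} ∧
        (∀ z : ℂ, 0 < z.im →
          -(z.im ^ 2) * (iteratedFDeriv ℝ 2 (f i) z ![(1 : ℂ), 1]
            + iteratedFDeriv ℝ 2 (f i) z ![Complex.I, Complex.I])
            = (1 / 4 + t i ^ 2) * f i z) ∧
        (∀ z : ℂ, 0 < z.im → f i (z + 1) = f i z ∧ f i (-z⁻¹) = f i z) ∧
        (∀ y : ℝ, 0 < y → ∫ x in (0 : ℝ)..1, f i ((x : ℂ) + (y : ℂ) * Complex.I) = 0) ∧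
        MeasureTheory.IntegrableOn (fun z : ℂ => f i z ^ 2 / z.im ^ 2)
          {z : ℂ | 0 < z.im ∧ |z.re| ≤ 1 / 2 ∧ 1 ≤ ‖z‖} ∧
        (∫ z in {z : ℂ | 0 < z.im ∧ |z.re| ≤ 1 / 2 ∧ 1 ≤ ‖z‖}, f i z ^ 2 / z.im ^ 2)
          = Real.pi / 3 ∧
        (∀ m : ℕ, 0 < m → ∃ c : ℝ, ∀ z : ℂ, 0 < z.im →
          ∑ d ∈ m.divisors, ∑ b ∈ Finset.range d,
            f i ((((m / d : ℕ) : ℂ) * z + (b : ℂ)) / (d : ℂ)) = c * f i z)) →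
      (∀ i j, i ≠ j →
        (∫ z in {z : ℂ | 0 < z.im ∧ |z.re| ≤ 1 / 2 ∧ 1 ≤ ‖z‖},
          f i z * f j z / z.im ^ 2) = 0) →
      ((Finset.univ.filter fun i : Fin n => ε ≤
        |(∫ z in {z : ℂ | 0 < z.im ∧ |z.re| ≤ 1 / 2 ∧ 1 ≤ ‖z‖}, ψ z * f i z ^ 4 / z.im ^ 2)
          - 3 * ∫ z in {z : ℂ | 0 < z.im ∧ |z.re| ≤ 1 / 2 ∧ 1 ≤ ‖z‖},
            ψ z / z.im ^ 2|).card : ℝ) ≤ δ * (T * M) := by
  intro θ hθ ψ hs hi hY ε δ hε hδ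
  obtain ⟨T₀, h⟩ := main hθ ⟨hs, hi, hY⟩ hε hδ
  refine ⟨T₀, fun T M hT h1 h2 n f t hf ho => ?_⟩
  have key := h T M (Fin n) Finset.univ (fun i => Up.indicator (f i)) t hT h1 h2
    ⟨⟨fun j _ => D4.form_ind (hf j).2.2.1 (hf j).2.2.2.1 (hf j).2.2.2.2.1 (hf j).2.2.2.2.2.2.1
      (hf j).2.2.2.2.2.2.2.1, fun i _ j _ hij =>
        (int_ind (fun z a b => a * b / z.im ^ 2) _ _).trans (ho i j hij)⟩,
      fun j _ => D4.cusp_ind (hf j).2.2.2.2.2.1, fun j _ => hecke_ind (hf j).2.2.2.2.2.2.2.2,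
      fun j _ => (hf j).1, fun j _ => (hf j).2.1⟩
  have e : ∀ i, D4.mk ψ (Up.indicator (f i)) 4 = D4.mk ψ (f i) 4 := fun i =>
    int_ind (fun z a _ => ψ z * a ^ 4 / z.im ^ 2) (f i) (f i)
  simp only [e] at key
  exact key

end Pool.Agent.Results.MP_a28cf0_nt.FourthAE
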