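import Pool.Agent.MP_a28cf0_nt.Mg.Four_Main
import Pool.Agent.MP_a28cf0_nt.Mg.Cub_Construct
import Pool.Agent.MP_a28cf0_nt.Cub.Ellip

set_option autoImplicit false

namespace Pool.Agent.Results.MP_a28cf0_nt.FourthLower

open Pool.Agent.MP_a28cf0_nt.Cub Pool.Agent.MP_a28cf0_nt.Four in
/-- Sharp lower bound for the smooth fourth moment of normalised Maass forms on the modular
surface: the Gaussian constant `3` is a lower bound in the large eigenvalue limit. -/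
theorem result :
  ∀ ψ : ℂ → ℝ, (∀ n : ℕ, ContDiffOn ℝ n ψ {z : ℂ | 0 < z.im}) →
    (∀ z : ℂ, 0 < z.im → ψ (z + 1) = ψ z ∧ ψ (-z⁻¹) = ψ z) →
    (∃ Y : ℝ, ∀ z : ℂ, Y ≤ z.im → ψ z = 0) →
    (∀ z : ℂ, 0 < z.im → 0 ≤ ψ z) →
  ∀ ε : ℝ, 0 < ε → ∃ T : ℝ, ∀ (f : ℂ → ℝ) (t : ℝ), T ≤ t →
      ContDiffOn ℝ 2 f {z : ℂ | 0 < z.im} →
      (∀ z : ℂ, 0 < z.im →
        -(z.im ^ 2) * (iteratedFDeriv ℝ 2 f z ![(1 : ℂ), 1]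
          + iteratedFDeriv ℝ 2 f z ![Complex.I, Complex.I])
          = (1 / 4 + t ^ 2) * f z) →
      (∀ z : ℂ, 0 < z.im → f (z + 1) = f z ∧ f (-z⁻¹) = f z) →
      MeasureTheory.IntegrableOn (fun z : ℂ => f z ^ 2 / z.im ^ 2)
        {z : ℂ | 0 < z.im ∧ |z.re| ≤ 1 / 2 ∧ 1 ≤ ‖z‖} →
      (∫ z in {z : ℂ | 0 < z.im ∧ |z.re| ≤ 1 / 2 ∧ 1 ≤ ‖z‖}, f z ^ 2 / z.im ^ 2)
        = Real.pi / 3 →
    3 * (∫ z in {z : ℂ | 0 < z.im ∧ |z.re| ≤ 1 / 2 ∧ 1 ≤ ‖z‖}, ψ z * f z ^ 2 / z.im ^ 2) ^ 2 - ε ≤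
      (∫ z in {z : ℂ | 0 < z.im ∧ |z.re| ≤ 1 / 2 ∧ 1 ≤ ‖z‖}, ψ z / z.im ^ 2) *
        ∫ z in {z : ℂ | 0 < z.im ∧ |z.re| ≤ 1 / 2 ∧ 1 ≤ ‖z‖}, ψ z * f z ^ 4 / z.im ^ 2 := by
  intro ψ hs hi hY h0 ε hε
  obtain ⟨Ψ, hΨ, hunf⟩ := unfold_wt ψ hs hi hY h0
  obtain ⟨T, hT⟩ := main4 hΨ hε
  refine ⟨T, fun f t ht h2 he hfi hint hn => ?_⟩
  obtain ⟨Φ, hΦ, hΦ0⟩ := exists_sys f t (smooth_of_eigen f _ h2 he) he hfi hint hn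
  have h1 := hT t Φ ht hΦ fun M hM => by rw [hΦ0 M hM, Complex.conj_ofReal]
  have key : ∀ k : ℕ, Even k → ∫ z in Fd, ψ z * f z ^ k / z.im ^ 2 =
      ∫ M, Ψ M * ‖Φ 0 M‖ ^ k ∂nu := by
    intro k hk
    rw [hunf (fun z => f z ^ k) (h2.continuousOn.pow k) fun z hz => by
      simp only [(hfi z hz).1, (hfi z hz).2, and_self]]
    refine MeasureTheory.integral_congr_ae (ae_mem_Sh.mono fun M hM => ?_)
    simp only [hΦ0 M (Sh_subset hM), Complex.norm_real, Real.norm_eq_abs, hk.pow_abs]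
  have k0 := key 0 (by decide)
  simp only [pow_zero, mul_one] at k0
  rw [← key 2 (by decide), ← key 4 (by decide), ← k0] at h1
  exact h1

end Pool.Agent.Results.MP_a28cf0_nt.FourthLower
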